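import Pool.Agent.H705.FP.Stm

/-! # Task ONE: anticoncentration of `Y + l V` (helper340, subtask of helper705) -/

set_option autoImplicit false

namespace Pool.Agent.H340.FP

open MeasureTheory ProbabilityTheory Filter Topology Finset

theorem vol_le {l η : ℝ} (hl : l ≠ 0) (hη : 0 ≤ η) (y : ℝ) :
    (volume : Measure ℝ) {v | |y + l * v| < η} = ENNReal.ofReal (2 * η / |l|) := by
  have h1 : {v : ℝ | |y + l * v| < η} = (fun v => l * v) ⁻¹' (Metric.ball (-y) η) := by
    ext v
    rw [Set.mem_ofPred_eq, Set.mem_preimage, Metric.mem_ball, Real.dist_eq]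
    have h2 : l * v - -y = y + l * v := by ring
    rw [h2]
  rw [h1, Real.volume_preimage_mul_left hl, Real.volume_ball,
    ← ENNReal.ofReal_mul (abs_nonneg _), abs_inv]
  congr 1
  field_simp

theorem T_ONE : Pool.Agent.H705.FP.P_ONE := by
  intro Ω _ P _ Y V hY hV hind hlaw l η hl hη
  have hS : MeasurableSet {p : ℝ × ℝ | |p.1 + l * p.2| < η} := by
    refine (isOpen_lt ?_ continuous_const).measurableSet
    fun_prop
  have h1 : P {ω | |Y ω + l * V ω| < η} =
      (P.map (fun ω => (Y ω, V ω))) {p : ℝ × ℝ | |p.1 + l * p.2| < η} := by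
    rw [Measure.map_apply (hY.prodMk hV) hS]
    rfl
  rw [h1, (indepFun_iff_map_prod_eq_prod_map_map hY.aemeasurable hV.aemeasurable).1 hind]
  have : IsProbabilityMeasure (P.map Y) := Measure.isProbabilityMeasure_map hY.aemeasurable
  have : IsProbabilityMeasure (P.map V) := Measure.isProbabilityMeasure_map hV.aemeasurable
  rw [Measure.prod_apply hS]
  calc ∫⁻ y, (P.map V) (Prod.mk y ⁻¹' {p : ℝ × ℝ | |p.1 + l * p.2| < η}) ∂(P.map Y)
      ≤ ∫⁻ _, ENNReal.ofReal (2 * η / |l|) ∂(P.map Y) := by
        refine lintegral_mono fun y => ?_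
        rw [hlaw]
        refine (Measure.restrict_apply_le _ _).trans ?_
        exact (vol_le hl hη y).le
    _ = _ := by rw [lintegral_const, measure_univ, mul_one]

end Pool.Agent.H340.FP
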